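import Pool.Agent.P.MP_d14b1f_an.Nv.All

/-! The exact maximal growth of the local Nevanlinna characteristic in the Hardy spaces of
Dirichlet series with exponent below two. -/

set_option autoImplicit false

namespace Pool.Agent.Results.MP_d14b1f_an.CubeRoot

open Filter Topology Asymptotics Pool.Agent.P.MP_d14b1f_an.Nv

theorem result (p : ℝ) (hp0 : 0 < p) (hp2 : p < 2) (g : ℝ → ℝ) :
    (∀ f : ℂ → ℂ, InH p f → ∀ a b : ℝ,
      (fun δ : ℝ => nev f a b (1 / 2 + δ)) =O[𝓝[>] 0] g) ↔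
    (fun δ : ℝ => Real.log (1 / δ) ^ (1 / 3 : ℝ)) =O[𝓝[>] 0] g := by
  constructor
  · intro h
    by_contra hn
    obtain ⟨f, hf, hf2⟩ := all_FINL p hp0 hp2 g hn
    exact hf2 (h f hf 0 1)
  · intro h f hf a b
    exact (all_FINU p hp0 f hf a b).trans h

end Pool.Agent.Results.MP_d14b1f_an.CubeRoot
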